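import Pool.Agent.L7h28.VC.Stm

set_option autoImplicit false

/-! Project VC, part GLO. -/

namespace Pool.Agent.L7h29.VC

open Finset Function Pool.Agent.L7h28.VC

theorem inv_const {m : ℕ} {F B : Type} (φ : (Fin m → F) → B)
    (h : ∀ y j t, φ (update y j t) = φ y) (y y' : Fin m → F) : φ y = φ y' := by
  classical
  have key : ∀ T : Finset (Fin m), φ (fun k => if k ∈ T then y' k else y k) = φ y := by
    intro T
    induction T using Finset.induction_on with
    | empty => simp
    | insert j T hj ih =>
      have : (fun k => if k ∈ insert j T then y' k else y k) =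
          update (fun k => if k ∈ T then y' k else y k) j (y' j) := by
        funext k
        by_cases hk : k = j
        · rw [hk]; simp
        · simp [hk]
      rw [this, h, ih]
  have h1 := key Finset.univ
  simp at h1
  exact h1.symm

theorem glo_core (p : ℕ) [Fact p.Prime] (m : ℕ) (o : Fin m) (g : (Fin m → ZMod p) → ZMod p)
    (h1 : ∀ (i : Fin m) (y : Fin m → ZMod p), Function.Injective fun t => g (update y i t))
    (h2 : ∀ (i j : Fin m), i ≠ j → ∀ y : Fin m → ZMod p, ∃ (σ : ZMod p ≃ ZMod p) (α β : ZMod p),
      ∀ s t, σ (g (update (update y i s) j t)) = α * s + β * t)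
    (hn : ∀ t, g (update 0 o t) = t) :
    ∃ a : Fin m → ZMod p, ∀ y, g y = ∑ i, a i * y i := by
  classical
  -- step 1
  have st1 : ∀ (i j : Fin m), i ≠ j → ∀ y : Fin m → ZMod p, ∃ γ : ZMod p, ∀ s t,
      g (update (update y i s) j t) = g (update (update y i (s + γ * t)) j 0) := by
    intro i j hij y
    obtain ⟨σ, α, β, hσ⟩ := h2 i j hij y
    have hα : α ≠ 0 := by
      intro h0
      have e1 := hσ 0 0
      have e2 := hσ 1 0
      rw [h0] at e1 e2
      have e3 : g (update (update y i 0) j 0) = g (update (update y i 1) j 0) := by
        apply σ.injective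
        rw [e1, e2]; ring
      rw [update_comm hij, update_comm hij] at e3
      have e4 := h1 i (update y j 0) e3
      exact zero_ne_one e4
    refine ⟨β / α, fun s t => ?_⟩
    apply σ.injective
    rw [hσ, hσ]
    field_simp
    ring
  -- step 2
  have st2' : ∀ T : Finset (Fin m), ∀ y : Fin m → ZMod p, (∀ k, k ∉ T → k ≠ o → y k = 0) →
      ∀ s, g (update y o s) = s + g (update y o 0) := by
    intro T
    induction T using Finset.induction_on with
    | empty =>
      intro y hy s
      have e : ∀ r, update y o r = update (0 : Fin m → ZMod p) o r := by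
        intro r
        funext k
        by_cases hk : k = o
        · rw [hk]; simp
        · rw [update_of_ne hk, update_of_ne hk]
          exact hy k (by simp) hk
      rw [e, e, hn, hn, add_zero]
    | insert j T hj ih =>
      intro y hy s
      by_cases hjo : j = o
      · apply ih y
        intro k hk hko
        apply hy k _ hko
        rw [Finset.mem_insert]
        rintro (h | h)
        · exact hko (h.trans hjo)
        · exact hk h
      · obtain ⟨γ, hγ⟩ := st1 o j (Ne.symm hjo) y
        have e1 : ∀ r, g (update y o r) = r + γ * y j + g (update (update y j 0) o 0) := by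
          intro r
          have e2 := hγ r (y j)
          have e3 : update (update y o r) j (y j) = update y o r := by
            rw [update_comm (Ne.symm hjo), update_eq_self]
          rw [e3, update_comm (Ne.symm hjo)] at e2
          rw [e2]
          apply ih (update y j 0)
          intro k hk hko
          by_cases hkj : k = j
          · rw [hkj]; simp
          · rw [update_of_ne hkj]
            apply hy k _ hko
            rw [Finset.mem_insert]
            rintro (h | h)
            · exact hkj h
            · exact hk h
        rw [e1 s, e1 0]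
        ring
  have st2 : ∀ y : Fin m → ZMod p, ∀ s, g (update y o s) = s + g (update y o 0) :=
    fun y s => st2' Finset.univ y (fun k hk => absurd (Finset.mem_univ k) hk) s
  -- step 3
  have st3 : ∀ i, i ≠ o → ∀ y : Fin m → ZMod p, ∃ γ : ZMod p, ∀ r s,
      g (update (update y o r) i s) = g (update (update y o r) i 0) + γ * s := by
    intro i hi y
    obtain ⟨γ, hγ⟩ := st1 o i (Ne.symm hi) y
    refine ⟨γ, fun r s => ?_⟩
    have e1 : ∀ x : ZMod p, update (update y o x) i 0 = update (update y i 0) o x :=
      fun x => update_comm (Ne.symm hi) _ _ _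
    rw [hγ r s, e1 (r + γ * s), e1 r, st2 _ (r + γ * s), st2 _ r]
    ring
  let sl : Fin m → (Fin m → ZMod p) → ZMod p := fun i y => g (update y i 1) - g (update y i 0)
  have st3a : ∀ i, i ≠ o → ∀ y s, g (update y i s) = g (update y i 0) + sl i y * s := by
    intro i hi y s
    obtain ⟨γ, hγ⟩ := st3 i hi y
    have e1 := hγ (y o) s
    have e2 := hγ (y o) 1
    rw [update_eq_self] at e1 e2
    have e3 : sl i y = γ := by
      simp only [sl]
      rw [e2]; ring
    rw [e1, e3]
  have st3b : ∀ i, i ≠ o → ∀ y r, sl i (update y o r) = sl i y := by
    intro i hi y r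
    obtain ⟨γ, hγ⟩ := st3 i hi y
    have e1 := hγ r 1
    have e2 := hγ (y o) 1
    rw [update_eq_self] at e2
    simp only [sl]
    rw [e1, e2]; ring
  have st4 : ∀ i j, i ≠ j → i ≠ o → j ≠ o → ∀ y s, sl j (update y i s) = sl j y := by
    intro i j hij hi hj y s
    obtain ⟨δ, hδ⟩ := st1 i j hij y
    have e1 : ∀ x t, g (update (update y i x) j t) =
        g (update (update y j 0) i 0) + sl i (update y j 0) * (x + δ * t) := by
      intro x t
      rw [hδ x t, update_comm hij, st3a i hi]
    have e2 : ∀ x, sl j (update y i x) = sl i (update y j 0) * δ := by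
      intro x
      simp only [sl]
      rw [e1, e1]
      simp only [sl]
      ring
    have e3 := e2 (y i)
    rw [update_eq_self] at e3
    rw [e2 s, e3]
  have hinv : ∀ i, ∀ y j t, sl i (update y j t) = sl i y := by
    intro i y j t
    by_cases hij : j = i
    · rw [hij]
      simp only [sl]
      rw [update_idem, update_idem]
    · by_cases hi : i = o
      · have e1 : ∀ z, sl i z = 1 := by
          intro z
          simp only [sl]
          rw [hi, st2 z 1]; ring
        rw [e1, e1]
      · by_cases hj : j = o
        · rw [hj]; exact st3b i hi y t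
        · exact st4 j i hij hj hi y t
  have hst : ∀ i y s, g (update y i s) = g (update y i 0) + sl i 0 * s := by
    intro i y s
    rw [← inv_const (sl i) (hinv i) y 0]
    by_cases hi : i = o
    · rw [hi, st2 y s]
      have e1 : sl o y = 1 := by
        simp only [sl]
        rw [st2 y 1]; ring
      rw [e1]; ring
    · exact st3a i hi y s
  refine ⟨fun i => sl i 0, fun y => ?_⟩
  have key : ∀ T : Finset (Fin m), g (fun k => if k ∈ T then y k else 0) = ∑ i ∈ T, sl i 0 * y i := by
    intro T
    induction T using Finset.induction_on with
    | empty =>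
      simp only [Finset.notMem_empty, if_false, Finset.sum_empty]
      have e1 := hn 0
      have e2 : update (0 : Fin m → ZMod p) o 0 = fun _ => 0 := by
        funext k
        by_cases hk : k = o
        · rw [hk]; simp
        · rw [update_of_ne hk]; rfl
      rw [e2] at e1
      exact e1
    | insert j T hj ih =>
      have e1 : (fun k => if k ∈ insert j T then y k else 0) =
          update (fun k => if k ∈ T then y k else 0) j (y j) := by
        funext k
        by_cases hk : k = j
        · rw [hk]; simp
        · simp [hk]
      have e2 : update (fun k => if k ∈ T then y k else 0) j 0 =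
          (fun k => if k ∈ T then y k else 0) := by
        funext k
        by_cases hk : k = j
        · rw [hk]; simp [hj]
        · rw [update_of_ne hk]
      rw [e1, hst, e2, ih, Finset.sum_insert hj]
      ring
  have h3 := key Finset.univ
  simp only [Finset.mem_univ, if_true] at h3
  exact h3

theorem s_GLO : S_GLO := by
  intro p _ m hm f h1 h2
  let o : Fin m := ⟨0, by omega⟩
  let e : ZMod p ≃ ZMod p := Equiv.ofBijective (fun t => f (update 0 o t))
    (Finite.injective_iff_bijective.mp (h1 o 0))
  have he : ∀ t, e t = f (update 0 o t) := fun t => rfl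
  obtain ⟨a, ha⟩ := glo_core p m o (fun y => e.symm (f y))
    (fun i y t t' h => h1 i y (e.symm.injective h))
    (fun i j hij y => by
      obtain ⟨σ, α, β, hσ⟩ := h2 i j hij y
      refine ⟨e.trans σ, α, β, fun s t => ?_⟩
      rw [Equiv.trans_apply, Equiv.apply_symm_apply]
      exact hσ s t)
    (fun t => by rw [← he t, Equiv.symm_apply_apply])
  exact ⟨e.symm, a, ha⟩

end Pool.Agent.L7h29.VC
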