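import Pool.Agent.L7h28.VC.Stm

set_option autoImplicit false

/-! Project VC, part LS (Lovasz, Schrijver). -/

namespace Pool.Agent.L7h29.VC

open Finset Polynomial Pool.Agent.L7h28.VC

theorem sum_pow_top (p : ℕ) [Fact p.Prime] (hp : 3 ≤ p) : ∑ t : ZMod p, t ^ (p - 1) = -1 := by
  have h1 : ∀ t : ZMod p, t ^ (p - 1) = 1 - (if t = 0 then 1 else 0) := by
    intro t
    by_cases ht : t = 0
    · rw [ht, if_pos rfl, zero_pow (by omega)]; ring
    · rw [if_neg ht, ZMod.pow_card_sub_one_eq_one ht]; ring
  rw [Finset.sum_congr rfl fun t _ => h1 t, Finset.sum_sub_distrib, Finset.sum_const,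
    Finset.card_univ, ZMod.card, Finset.sum_ite_eq']
  simp

theorem sum_pow_low (p : ℕ) [Fact p.Prime] (i : ℕ) (hi : i < p - 1) :
    ∑ t : ZMod p, t ^ i = 0 := by
  apply FiniteField.sum_pow_lt_card_sub_one
  rwa [ZMod.card]

theorem sum_eval (p : ℕ) [Fact p.Prime] (hp : 3 ≤ p) (H : (ZMod p)[X])
    (hH : H.natDegree = p - 1) : ∑ t : ZMod p, H.eval t = - H.leadingCoeff := by
  simp only [Polynomial.eval_eq_sum_range]
  rw [Finset.sum_comm, hH, Finset.sum_range_succ]
  have h1 : ∀ i ∈ range (p - 1), ∑ t : ZMod p, H.coeff i * t ^ i = 0 := by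
    intro i hi
    rw [← Finset.mul_sum, sum_pow_low p i (Finset.mem_range.mp hi), mul_zero]
  rw [Finset.sum_eq_zero h1, zero_add, ← Finset.mul_sum, sum_pow_top p hp, leadingCoeff, hH]
  ring

/-- the power sums -/
theorem power_sums (p : ℕ) [Fact p.Prime] (hp : 3 ≤ p) (g : ZMod p → ZMod p)
    (S : Finset (ZMod p)) (hS : (p - 1) / 2 ≤ S.card)
    (hinj : ∀ s ∈ S, Function.Injective fun t => g t + s * t) (a b : ℕ) (hb : 1 ≤ b)
    (hab : a + b ≤ (p - 1) / 2) : ∑ t : ZMod p, t ^ a * g t ^ b = 0 := by
  set j := a + b with hj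
  have hjp : j < p - 1 := by omega
  let Q : (ZMod p)[X] := ∑ t : ZMod p, (C t * X + C (g t)) ^ j
  have hcoeff : ∀ i, i ≤ j → Q.coeff i = (j.choose i : ZMod p) * ∑ t : ZMod p, t ^ i * g t ^ (j - i) := by
    intro i _
    simp only [Q, finsetSum_coeff]
    rw [Finset.mul_sum]
    apply Finset.sum_congr rfl
    intro t _
    rw [add_pow, finsetSum_coeff]
    rw [Finset.sum_eq_single i]
    · rw [mul_pow, ← C_pow, ← C_pow, ← C_eq_natCast, mul_assoc, mul_assoc, coeff_C_mul, ← C_mul,
        mul_comm (X ^ i), coeff_C_mul, coeff_X_pow_self]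
      ring
    · intro k _ hki
      rw [mul_pow, ← C_pow, ← C_pow, ← C_eq_natCast, mul_assoc, mul_assoc, coeff_C_mul, ← C_mul,
        mul_comm (X ^ k), coeff_C_mul, coeff_X_pow, if_neg (Ne.symm hki)]
      ring
    · intro h
      exact absurd (Finset.mem_range.mpr (by omega)) h
  have hdeg : Q.degree < (S.card : WithBot ℕ) := by
    have h1 : Q.degree < (j : WithBot ℕ) := by
      rw [degree_lt_iff_coeff_zero]
      intro m hm
      rcases Nat.lt_or_ge j m with h | h
      · simp only [Q, finsetSum_coeff]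
        apply Finset.sum_eq_zero
        intro t _
        apply coeff_eq_zero_of_natDegree_lt
        apply lt_of_le_of_lt _ h
        refine natDegree_pow_le.trans ?_
        have : (C t * X + C (g t)).natDegree ≤ 1 := natDegree_linear_le
        nlinarith
      · have hm' : m = j := le_antisymm h hm
        rw [hm', hcoeff j le_rfl]
        simp only [Nat.sub_self, pow_zero, mul_one]
        rw [sum_pow_low p j hjp, mul_zero]
    refine lt_of_lt_of_le h1 ?_
    exact_mod_cast hab.trans hS
  have hQ0 : Q = 0 := by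
    apply Polynomial.eq_zero_of_degree_lt_of_eval_finset_eq_zero S hdeg
    intro s hs
    have hbij : Function.Bijective fun t : ZMod p => g t + s * t :=
      Finite.injective_iff_bijective.mp (hinj s hs)
    simp only [Q, eval_finset_sum, eval_pow, eval_add, eval_mul, eval_C, eval_X]
    have h2 : ∑ t : ZMod p, (t * s + g t) ^ j = ∑ x : ZMod p, x ^ j := by
      apply Fintype.sum_bijective _ hbij
      intro t
      ring
    rw [h2, sum_pow_low p j hjp]
  have h3 := hcoeff a (by omega)
  rw [hQ0, coeff_zero, show j - a = b by omega] at h3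
  rcases mul_eq_zero.mp h3.symm with h4 | h4
  · exfalso
    rw [ZMod.natCast_eq_zero_iff] at h4
    have h5 : p ∣ j.factorial := by
      apply h4.trans
      rw [← Nat.choose_mul_factorial_mul_factorial (show a ≤ j by omega), mul_assoc]
      exact Dvd.intro _ rfl
    have h6 := (Nat.Prime.dvd_factorial (Fact.out : p.Prime)).mp h5
    omega
  · exact h4

theorem s_LS : S_LS := by
  intro p _ hp g S hS hinj
  let G : (ZMod p)[X] := Lagrange.interpolate Finset.univ id g
  have hG : ∀ t, G.eval t = g t := fun t =>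
    Lagrange.eval_interpolate_at_node g (Function.injective_id.injOn) (Finset.mem_univ t)
  have hGdeg : G.degree < (p : WithBot ℕ) := by
    have := Lagrange.degree_interpolate_lt g (s := Finset.univ) (v := (id : ZMod p → ZMod p))
      (Function.injective_id.injOn)
    rwa [Finset.card_univ, ZMod.card] at this
  by_cases hd : G.natDegree ≤ 1
  · refine ⟨G.coeff 0, G.coeff 1, fun t => ?_⟩
    rw [← hG t]
    conv_lhs => rw [Polynomial.eq_X_add_C_of_natDegree_le_one hd]
    simp
    ring
  · exfalso
    push Not at hd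
    have hG0 : G ≠ 0 := by
      intro h
      rw [h] at hd
      simp at hd
    have hdp : G.natDegree ≤ p - 1 := by
      have h1 : G.natDegree < p := (natDegree_lt_iff_degree_lt hG0).mpr hGdeg
      omega
    set d := G.natDegree with hdd
    have hodd : p % 2 = 1 := by
      rcases (Fact.out : p.Prime).eq_two_or_odd with h | h
      · omega
      · exact h
    have hdm := Nat.div_add_mod (p - 1) d
    set b := (p - 1) / d with hbdef
    set a := (p - 1) % d with hadef
    have hb : 1 ≤ b := (Nat.one_le_div_iff (by omega)).mpr hdp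
    have ha : a < d := Nat.mod_lt _ (by omega)
    have hkey : a + 2 * b ≤ d * b := by
      rcases Nat.lt_or_ge 2 d with h2 | h2
      · rcases Nat.lt_or_ge 1 b with h3 | h3
        · obtain ⟨x, hx⟩ : ∃ x, d = x + 3 := ⟨d - 3, by omega⟩
          obtain ⟨y, hy⟩ : ∃ y, b = y + 2 := ⟨b - 2, by omega⟩
          have h7 : a ≤ x + 2 := by omega
          calc a + 2 * b ≤ (x + 2) + 2 * (y + 2) := by omega
            _ ≤ (x + 3) * (y + 2) := by nlinarith
            _ = d * b := by rw [← hx, ← hy]
        · have hb1 : b = 1 := by omega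
          rw [hb1] at hdm ⊢
          omega
      · have hd2 : d = 2 := by omega
        rw [hd2] at hdm ha ⊢
        omega
    have hab : a + b ≤ (p - 1) / 2 := by
      rw [Nat.le_div_iff_mul_le (by norm_num)]
      omega
    have h4 := power_sums p hp g S hS hinj a b hb hab
    have h5 := sum_eval p hp (X ^ a * G ^ b) (by
      rw [natDegree_mul (pow_ne_zero _ X_ne_zero) (pow_ne_zero _ hG0), natDegree_X_pow,
        natDegree_pow, ← hdd]
      nlinarith)
    simp only [eval_mul, eval_pow, eval_X, hG] at h5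
    rw [h4] at h5
    have h6 : (X ^ a * G ^ b : (ZMod p)[X]).leadingCoeff = 0 := neg_eq_zero.mp h5.symm
    rw [leadingCoeff_eq_zero] at h6
    exact mul_ne_zero (pow_ne_zero _ X_ne_zero) (pow_ne_zero _ hG0) h6

end Pool.Agent.L7h29.VC
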