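import Pool.Agent.L7h28.VC.Stm

set_option autoImplicit false

/-! Project VC, part TWO. -/

namespace Pool.Agent.L7h29.VC

open Finset Pool.Agent.L7h28.VC

theorem s_TWO (hLS : S_LS) : S_TWO := by
  classical
  intro p _ hp f W hW hind hinj
  have hodd : p % 2 = 1 := by
    rcases (Fact.out : p.Prime).eq_two_or_odd with h | h
    · omega
    · exact h
  have hW2 : 1 < W.card := by omega
  obtain ⟨w0, hw0, w1, hw1, hne⟩ := Finset.one_lt_card.mp hW2
  have hD0 : w0.1 * w1.2 - w0.2 * w1.1 ≠ 0 := sub_ne_zero.mpr (hind w0 hw0 w1 hw1 hne)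
  set D : ZMod p := w0.1 * w1.2 - w0.2 * w1.1 with hD
  let Y : ZMod p → ZMod p → ZMod p := fun t u => (w1.2 * t - w0.2 * u) / D
  let Z : ZMod p → ZMod p → ZMod p := fun t u => (w0.1 * u - w1.1 * t) / D
  have hY0 : ∀ t u, w0.1 * Y t u + w0.2 * Z t u = t := by
    intro t u
    simp only [Y, Z]
    field_simp
    rw [hD]; ring
  have hY1 : ∀ t u, w1.1 * Y t u + w1.2 * Z t u = u := by
    intro t u
    simp only [Y, Z]
    field_simp
    rw [hD]; ring
  have hYY : ∀ y z, Y (w0.1 * y + w0.2 * z) (w1.1 * y + w1.2 * z) = y := by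
    intro y z
    simp only [Y]
    rw [div_eq_iff hD0, hD]; ring
  have hZZ : ∀ y z, Z (w0.1 * y + w0.2 * z) (w1.1 * y + w1.2 * z) = z := by
    intro y z
    simp only [Z]
    rw [div_eq_iff hD0, hD]; ring
  have hfi : ∀ t, Function.Injective fun u => f (Y t u) (Z t u) := by
    intro t u u' h
    have h1 := hinj w0 hw0 (Y t u) (Z t u) (Y t u') (Z t u') (by rw [hY0, hY0]) h
    rw [← hY1 t u, ← hY1 t u', h1.1, h1.2]
  have hfs : ∀ t v, ∃ u, f (Y t u) (Z t u) = v := fun t v =>
    (Finite.injective_iff_surjective.mp (hfi t)) v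
  choose g hg using hfs
  -- slopes
  let S : Finset (ZMod p) := (W.erase w0).image
    (fun w => (w.1 * w1.2 - w.2 * w1.1) / (w0.1 * w.2 - w0.2 * w.1))
  have hmu : ∀ w ∈ W.erase w0, w0.1 * w.2 - w0.2 * w.1 ≠ 0 := by
    intro w hw
    rw [Finset.mem_erase] at hw
    exact sub_ne_zero.mpr (hind w0 hw0 w hw.2 (Ne.symm hw.1))
  have hScard : (p - 1) / 2 ≤ S.card := by
    rw [Finset.card_image_of_injOn, Finset.card_erase_of_mem hw0]
    · omega
    · intro w hw w' hw' h
      have hm := hmu w hw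
      have hm' := hmu w' hw'
      simp only at h
      rw [div_eq_div_iff hm hm'] at h
      by_contra hww
      have h2 : D * (w.1 * w'.2 - w.2 * w'.1) = 0 := by
        rw [hD]
        linear_combination h
      rcases mul_eq_zero.mp h2 with h3 | h3
      · exact hD0 h3
      · exact hind w (Finset.mem_of_mem_erase hw) w' (Finset.mem_of_mem_erase hw') hww
          (sub_eq_zero.mp h3)
  have hSinj : ∀ v, ∀ s ∈ S, Function.Injective fun t => g t v + s * t := by
    intro v s hs t t' htt
    simp only [S, Finset.mem_image] at hs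
    obtain ⟨w, hw, rfl⟩ := hs
    have hm := hmu w hw
    simp only at htt
    have hs : (w0.1 * w.2 - w0.2 * w.1) * ((w.1 * w1.2 - w.2 * w1.1) / (w0.1 * w.2 - w0.2 * w.1)) =
        w.1 * w1.2 - w.2 * w1.1 := mul_div_cancel₀ _ hm
    generalize (w.1 * w1.2 - w.2 * w1.1) / (w0.1 * w.2 - w0.2 * w.1) = s at htt hs
    have h0 : (w0.1 * w.2 - w0.2 * w.1) * g t v + (w.1 * w1.2 - w.2 * w1.1) * t =
        (w0.1 * w.2 - w0.2 * w.1) * g t' v + (w.1 * w1.2 - w.2 * w1.1) * t' := by
      linear_combination (w0.1 * w.2 - w0.2 * w.1) * htt - t * hs + t' * hs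
    have h1 : w.1 * Y t (g t v) + w.2 * Z t (g t v) = w.1 * Y t' (g t' v) + w.2 * Z t' (g t' v) := by
      simp only [Y, Z]
      field_simp
      linear_combination h0
    have h2 := hinj w (Finset.mem_of_mem_erase hw) _ _ _ _ h1 ((hg t v).trans (hg t' v).symm)
    rw [← hY0 t (g t v), ← hY0 t' (g t' v), h2.1, h2.2]
  have haff : ∀ v, ∃ α β : ZMod p, ∀ t, g t v = α + β * t := fun v =>
    hLS p hp (fun t => g t v) S hScard (hSinj v)
  choose al be hab using haff
  have hbe : ∀ v v', be v = be v' := by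
    intro v v'
    by_contra hb
    have hb' : be v - be v' ≠ 0 := sub_ne_zero.mpr hb
    let t := (al v' - al v) / (be v - be v')
    have ht : g t v = g t v' := by
      rw [hab v t, hab v' t]
      simp only [t]
      field_simp
      ring
    have hvv : v = v' := by
      rw [← hg t v, ← hg t v', ht]
    exact hb (by rw [hvv])
  have hal : Function.Injective al := by
    intro v v' h
    have ht : g 0 v = g 0 v' := by rw [hab v 0, hab v' 0, h]; ring
    rw [← hg 0 v, ← hg 0 v', ht]
  refine ⟨Equiv.ofBijective al (Finite.injective_iff_bijective.mp hal),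
    w1.1 - be 0 * w0.1, w1.2 - be 0 * w0.2, ?_⟩
  intro y z
  rw [Equiv.ofBijective_apply]
  set t := w0.1 * y + w0.2 * z with ht
  set u := w1.1 * y + w1.2 * z with hu
  have h1 : g t (f y z) = u := by
    apply hfi t
    simp only
    rw [hg t (f y z)]
    rw [ht, hu, hYY, hZZ]
  have h2 := hab (f y z) t
  rw [h1, hbe (f y z) 0] at h2
  have h3 : al (f y z) = u - be 0 * t := by rw [h2]; ring
  rw [h3, ht, hu]
  ring

end Pool.Agent.L7h29.VC
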